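import Pool.Agent.K1H60.BF.Knot2

/-!
# `n(K) = n₀(K)` for every knot `K`

The condition on `A(1)` in the definition of the invariant `n(K)` can be dropped: if the
Blanchfield pairing of a knot is presented by a hermitian matrix `A` of size `k` over
`Λ = ℤ[t, t⁻¹]`, then it is presented by a hermitian matrix `A'` of the same size `k` (and with the
same determinant) for which `A'(1)` is a diagonal matrix with diagonal entries `±1`.

The Seifert matrices of knots are, up to a unimodular congruence, the integral square matrices `V`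
of even size with `det (V - Vᵀ) = 1`.
-/

namespace Pool.Agent.Results.MP_800ada_gt.EqualInvariants

open Matrix Pool.Agent.R799

/-- The invariant `n₀(K)` of a knot `K` with Seifert matrix `V`: the least size of a hermitian
matrix `A` over `Λ` with non-zero determinant and `λ(A) ≅ λ(K)`. -/
noncomputable def nZero {n : Type*} [Fintype n] [DecidableEq n] (V : Matrix n n ℤ) : ℕ :=
  sInf {k | ∃ A : Matrix (Fin k) (Fin k) Lam, PresentsBlanchfield A V}

/-- Let `V` be a Seifert matrix of a knot `K`. Then `n(K) = n₀(K)`. More precisely, for every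
hermitian matrix `A` over `Λ` with `det A ≠ 0` and `λ(A) ≅ λ(K)` there is a hermitian matrix `A'`
of the same size and with the same determinant such that `λ(A') ≅ λ(K)` and `A'(1)` is diagonal
with diagonal entries `±1`. -/
theorem result (g : ℕ) (V : Matrix (Fin (2 * g)) (Fin (2 * g)) ℤ) (hV : (V - Vᵀ).det = 1) :
    nInv V = nZero V ∧
    ∀ (k : ℕ) (A : Matrix (Fin k) (Fin k) Lam), PresentsBlanchfield A V →
      ∃ A' : Matrix (Fin k) (Fin k) Lam, PresentsBlanchfield A' V ∧ A'.det = A.det ∧
        ∃ d : Fin k → ℤ, (∀ i, d i = 1 ∨ d i = -1) ∧ atOne A' = Matrix.diagonal d := by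
  have hu : IsUnit (V - Vᵀ).det := by rw [hV]; exact isUnit_one
  refine ⟨?_, fun k A hA => Pool.Agent.K1H60.BF.knot_main hu hA⟩
  unfold nInv nZero
  congr 1
  refine Set.ext fun k => ⟨?_, ?_⟩
  · rintro ⟨A, hA, -⟩
    exact ⟨A, hA⟩
  · rintro ⟨A, hA⟩
    obtain ⟨A', h1, -, h2⟩ := Pool.Agent.K1H60.BF.knot_main hu hA
    exact ⟨A', h1, Pool.Agent.K1H60.BF.congruentToDiagonal_of h2⟩

end Pool.Agent.Results.MP_800ada_gt.EqualInvariants
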